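import Pool.Agent.NH56.MR.Mod
import Pool.Agent.Y229.SP5

set_option autoImplicit false
set_option linter.unusedSectionVars false
set_option linter.unusedVariables false

/-! # Products of powers of ideals with a factor whose blow-up is a principalization -/

namespace Pool.Agent.NH56.MR

open MvPowerSeries Pool.Agent.W574.MO Pool.Agent.W574.RO Pool.Agent.Y231.RF Pool.Agent.Y229
  Pool.Agent.W574.LM Pool.Agent.TH192.DT

variable {σ τ : Type} [Fintype σ] [DecidableEq σ] [Fintype τ] [DecidableEq τ] {κ : τ → Type}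
  [∀ t, Fintype (κ t)] [∀ t, DecidableEq (κ t)]

/-- the generators of the product of the powers -/
theorem gen_ne (a : τ → ℕ) (g : (t : τ) → κ t → MvPolynomial σ ℂ) (hg : ∀ t, ∃ j, g t j ≠ 0) :
    ∃ J : (q : Σ t, Fin (a t)) → κ q.1, (1 * ∏ q, g q.1 (J q) : MvPolynomial σ ℂ) ≠ 0 := by
  choose j hj using hg
  refine ⟨fun q => j q.1, ?_⟩
  rw [one_mul]
  exact Finset.prod_ne_zero_iff.2 fun q _ => hj q.1

theorem model_main {M : Type} [CommRing M] {L : Mˣ} {J : Type} [Fintype J] [DecidableEq J]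
    (g : (t : τ) → κ t → MvPolynomial σ ℂ) (hg : ∀ t, ∃ j, g t j ≠ 0) (s : τ)
    (Y : Model L g s J) (a : τ → ℕ) (ha : 0 < a s) :
    tail 1 (Y.zeta a) ∈ DenRing L
      (KS (fun J : (q : Σ t, Fin (a t)) → κ q.1 => (1 * ∏ q, g q.1 (J q) : MvPolynomial σ ℂ)) 0) := by
  classical
  refine tail_strata (fun i => ∑ t, a t * Y.m i t) Y.k Y.cls (fun i h0 => ?_) Y.vol _
    (fun i hi => ?_)
  · apply Y.exc i
    have h1 := (Finset.sum_eq_zero_iff.1 h0) s (Finset.mem_univ s)
    rcases Nat.mul_eq_zero.1 h1 with h2 | h2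
    · omega
    · exact h2
  · refine sf_of_local _ 0 _ (fun H b hb hH => ?_) (exists_fe _ (gen_ne a g hg))
    have hH0 : MvPolynomial.constantCoeff H ≠ 0 := by
      rwa [MvPolynomial.constantCoeff_eq, ← MvPolynomial.constantCoeff_eq,
        ← MvPolynomial.eval_zero]
    obtain ⟨E, hk, hm, hU, hEH⟩ := Y.chart i H hH0
    have hb' : IsLocEq H (prodFam fun q : Σ t, Fin (a t) => g q.1) b := by
      have h1 : (prodFam fun q : Σ t, Fin (a t) => g q.1) =
          (fun J : (q : Σ t, Fin (a t)) → κ q.1 => (1 * ∏ q, g q.1 (J q) : MvPolynomial σ ℂ)) := by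
        funext J
        rw [prodFam, one_mul]
      rw [h1]
      exact hb
    have hmul : E.mul a = ∑ t, a t * Y.m i t := by
      rw [Chart.mul, hm]
    have h2 := rees_prod a g b H hb' E
      (isRees_of_unramified E s (fun t => a t ≠ 0) (Nat.pos_iff_ne_zero.1 ha) hU) hEH 0
      (by rw [hmul]; exact hi) 1 ⟨1, by rw [map_one]; exact one_ne_zero, by
        rw [map_one, pow_zero, one_mul]⟩
    rw [hmul, hk] at h2
    have h3 : (-((Y.k i + 1 : ℕ) : ℂ) / ((∑ t, a t * Y.m i t : ℕ) : ℂ)) =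
        -((Y.k i : ℂ) + 1 + (0 : ℕ)) / ((∑ t, a t * Y.m i t : ℕ) : ℂ) := by
      push_cast
      ring
    rw [h3]
    exact h2

end Pool.Agent.NH56.MR
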