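import Pool.Agent.NH56.MR.Mod
import Pool.Agent.R852.MC.Defs

set_option autoImplicit false

/-! # The class -/

namespace Pool.Agent.NH56.MR

open Pool.Agent.W574.SM Pool.Agent.W574.MO Pool.Agent.W574.RO Pool.Agent.W574.CN
  Pool.Agent.Y229 Pool.Agent.R852.TP Pool.Agent.R852.MC Pool.Agent.Y231.RF

/-- `MR L A Z`: the ideal `I` generated by the family `A` is in the least class with the following
properties, and `Z` is its local motivic zeta function at the origin, normalized such that the arcs
with the origin `0` have the volume `1`. -/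
inductive MR {M : Type} [CommRing M] (L : Mˣ) : Fam → PowerSeries M → Prop
  /-- the germs in the class `ML` of `PowersOfForms`: all non-zero ideals of `ℂ[x, y]`, ... -/
  | old (A : Fam) (Z : PowerSeries M) (h : ML L A Z) : MR L A Z
  /-- `∏ t, I_t ^ a t`, `a s > 0`, if the blow-up of the affine space along `I_s` is a principalization
  of the product of the `I_t` -/
  | model (σ τ J : Type) [Fintype σ] [DecidableEq σ] [Fintype τ] [DecidableEq τ] [Fintype J]
      [DecidableEq J] (κ : τ → Type) [∀ t, Fintype (κ t)] [∀ t, DecidableEq (κ t)]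
      (g : (t : τ) → κ t → MvPolynomial σ ℂ) (hg : ∀ t, ∃ j, g t j ≠ 0) (s : τ)
      (Y : Model L g s J) (a : τ → ℕ) (ha : 0 < a s) : MR L (genFam a 1 g) (Y.zeta a)
  /-- the sum of two ideals in disjoint sets of variables -/
  | sum (A B : Fam) (Z W : PowerSeries M) (hA : MR L A Z) (hB : MR L B W) :
      MR L (A.sum B) (sumSeries Z W)
  /-- the product of two ideals in disjoint sets of variables: the orders are added -/
  | mul (A B : Fam) (Z W : PowerSeries M) (hA : MR L A Z) (hB : MR L B W) : MR L (A.mul B) (Z * W)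
  /-- the germ of the hypersurface `h(x) ∏_t (∑_j y_{t, j} f_{t, j}(x)) ^ a_t = 0`, if the germ of the
  ideal `h ∏_t (f_{t, j})_j ^ a_t` is in the class -/
  | form (σ τ : Type) [Fintype τ] [DecidableEq τ] [Nonempty τ] (κ : τ → Type)
      [∀ t, Fintype (κ t)] (a : τ → ℕ) (ha : ∀ t, 0 < a t) (h : MvPolynomial σ ℂ)
      (f : (t : τ) → κ t → MvPolynomial σ ℂ) (Z : PowerSeries M) (hA : MR L (genFam a h f) Z) :
      MR L (formFam a h f) (Z * ∏ t, mf L (a t) 1)
  /-- the powers of a principal ideal: the orders are multiplied by `k` -/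
  | pow (σ : Type) (g : MvPolynomial σ ℂ) (k : ℕ) (hk : k ≠ 0) (Z : PowerSeries M)
      (hA : MR L ⟨σ, Fin 1, fun _ => g⟩ Z) :
      MR L ⟨σ, Fin 1, fun _ => g ^ k⟩ (PowerSeries.expand k hk Z)
  /-- the variables and the generators may be indexed differently -/
  | equiv (A B : Fam) (i : A.σ ≃ B.σ) (k : A.ι ≃ B.ι)
      (h : ∀ j, B.f (k j) = MvPolynomial.rename i (A.f j))
      (Z : PowerSeries M) (hA : MR L A Z) : MR L B Z

end Pool.Agent.NH56.MR
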