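import Mathlib

set_option autoImplicit false

/-! # Completing one covector to a basis by elements of a generating set -/

namespace Pool.Agent.NH56.MR

/-- Steinitz. -/
theorem exists_choice {σ : Type} [Fintype σ] [DecidableEq σ] (z : σ) (S : Set (σ → ℂ))
    (hS : Submodule.span ℂ S = ⊤) :
    ∃ v : σ → (σ → ℂ), v z = Pi.single z 1 ∧ (∀ t, t ≠ z → v t ∈ S) ∧
      (Matrix.of fun s t => v t s).det ≠ 0 := by
  classical
  set e : σ → ℂ := Pi.single z 1 with he
  have he0 : e ≠ 0 := by
    intro h
    have := congrFun h z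
    rw [he, Pi.single_eq_same, Pi.zero_apply] at this
    exact one_ne_zero this
  have h1 : LinearIndepOn ℂ id ({e} : Set (σ → ℂ)) := LinearIndepOn.singleton he0
  obtain ⟨b, hbt, hsb, htb, hb⟩ := exists_linearIndepOn_id_extension h1
    (Set.singleton_subset_iff.2 (Set.mem_insert e S) : ({e} : Set (σ → ℂ)) ⊆ insert e S)
  have hspan : Submodule.span ℂ b = ⊤ := by
    rw [eq_top_iff, ← hS]
    refine Submodule.span_le.2 fun x hx => ?_
    exact htb (Set.mem_insert_of_mem e hx)
  have hb' : LinearIndependent ℂ ((↑) : b → (σ → ℂ)) := hb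
  have hfin : Finite b := hb'.finite
  have : Fintype b := Fintype.ofFinite b
  have hcard : Fintype.card b = Fintype.card σ := by
    have h2 := finrank_span_eq_card hb'
    rw [Subtype.range_coe, hspan, finrank_top, Module.finrank_fintype_fun_eq_card] at h2
    exact h2.symm
  let e0 : σ ≃ b := (Fintype.equivOfCardEq hcard).symm
  let be : b := ⟨e, hsb (Set.mem_singleton e)⟩
  let e1 : σ ≃ b := e0.trans (Equiv.swap (e0 z) be)
  have hz : e1 z = be := by
    change Equiv.swap (e0 z) be (e0 z) = be
    exact Equiv.swap_apply_left _ _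
  refine ⟨fun t => (e1 t : σ → ℂ), ?_, fun t ht => ?_, ?_⟩
  · change (e1 z : σ → ℂ) = e
    rw [hz]
  · rcases hbt (e1 t).2 with h | h
    · exfalso
      apply ht
      apply e1.injective
      rw [hz]
      exact Subtype.ext h
    · exact h
  · have h3 : LinearIndependent ℂ fun t => (e1 t : σ → ℂ) :=
      hb'.comp e1 e1.injective
    have h4 : LinearIndependent ℂ (Matrix.of fun t s => (e1 t : σ → ℂ) s).row := h3
    have h5 := Matrix.linearIndependent_rows_iff_isUnit.1 h4
    have h6 := ((Matrix.isUnit_iff_isUnit_det _).1 h5).ne_zero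
    have h7 : (Matrix.of fun s t => (e1 t : σ → ℂ) s) =
        (Matrix.of fun t s => (e1 t : σ → ℂ) s).transpose := rfl
    rw [h7, Matrix.det_transpose]
    exact h6

end Pool.Agent.NH56.MR
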