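import Pool.Agent.NH56.MR.Cls
import Pool.Agent.NH56.MR.Atom
import Pool.Agent.R852.MC.Fin

set_option autoImplicit false
set_option linter.unusedSectionVars false
set_option linter.unusedVariables false

/-! # The induction -/

namespace Pool.Agent.NH56.MR

open MvPolynomial Pool.Agent.W574.MO Pool.Agent.W574.SM Pool.Agent.W574.LM Pool.Agent.W574.HS
  Pool.Agent.W574.RO Pool.Agent.W574.CN Pool.Agent.Y229 Pool.Agent.R852.TP Pool.Agent.R852.TL
  Pool.Agent.R852.MC Pool.Agent.Y231.RF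
open Pool.Agent.R852.PP (cntR one_le_cntR)
open Pool.Agent.Y230.PS (FM single_of_isB)
open Pool.Agent.Y230.TH (fm_one)

variable {M : Type} [CommRing M] {L : Mˣ}

theorem mr_main (A : Fam) (Z : PowerSeries M) (h : MR L A Z) :
    Finite A.σ ∧ (∃ j, A.f j ≠ 0) ∧ tail 1 Z ∈ DenRing L (KS A.f 0) := by
  classical
  induction h with
  | old A Z h => exact ml_main A Z h
  | model σ τ J κ g hg s Y a ha =>
    refine ⟨inferInstanceAs (Finite σ), gen_ne a g hg, ?_⟩
    have h1 := model_main g hg s Y a ha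
    convert h1
  | sum A B Z W hA hB ihA ihB =>
    obtain ⟨fA, hne, hZ⟩ := ihA
    obtain ⟨fB, -, hW⟩ := ihB
    have := fA
    have := fB
    refine ⟨inferInstanceAs (Finite (A.σ ⊕ B.σ)), sum_ne hne, ?_⟩
    rw [tail_min]
    refine had_mem hZ hW fun a n a' n' l ha hn hK ha' hn' hK' hl hal hal' => ?_
    have h1 := sf_sum A.f B.f 0 0 _ _ hK hK'
    have h3 : (Sum.elim (0 : A.σ → ℂ) (0 : B.σ → ℂ)) = 0 := by
      funext x
      rcases x with x | x <;> rfl
    rw [add_frac ha ha' hl hal hal', h3] at h1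
    exact h1
  | mul A B Z W hA hB ihA ihB =>
    obtain ⟨fA, hneA, hZ⟩ := ihA
    obtain ⟨fB, hneB, hW⟩ := ihB
    have := fA
    have := fB
    have h3 : (Sum.elim (0 : A.σ → ℂ) (0 : B.σ → ℂ)) = 0 := by
      funext x
      rcases x with x | x <;> rfl
    refine ⟨inferInstanceAs (Finite (A.σ ⊕ B.σ)), mul_ne hneA hneB, ?_⟩
    refine tail_mul_mem (denRing_mono (fun a n _ _ h => ?_) hZ)
      (denRing_mono (fun a n _ _ h => ?_) hW)
    · have h1 := sf_mul A.f B.f 0 0 _ h hneB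
      rw [h3] at h1
      exact h1
    · have h1 := sf_mul' A.f B.f 0 0 _ h hneA
      rw [h3] at h1
      exact h1
  | form σ τ κ a ha h f Z hA ihA =>
    obtain ⟨fA, hne, hZ⟩ := ihA
    have hfin : Finite σ := fA
    have hF := form_ne' a h f ha hne
    have hfin' : Finite ((Σ t, κ t) ⊕ σ) := inferInstance
    have hFne : ∃ j, (formFam a h f).f j ≠ 0 := ⟨(0 : Fin 1), hF⟩
    refine ⟨hfin', hFne, tail_mul_mem (denRing_mono (fun x n _ _ h1 => ?_) hZ)
      (tail_prod_mem _ _ fun t _ => tail_mf_mem _ (ha t) ?_)⟩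
    · exact sf_of_lm _ hFne _ _ (Nat.le_add_right _ _)
        (lm_form a h f ha hne _ 1 (lm_of_sf _ _ h1))
    · have h2 := lm_form a h f ha hne (-((1 : ℕ) : ℂ) / a t) 0 (lm_zero _ _)
      refine sf_of_lm _ hFne _ _ ?_ h2
      rw [zero_add]
      exact one_le_cntR' a ha t _ (by push_cast; ring)
  | pow σ g k hk Z hA ihA =>
    obtain ⟨fA, ⟨j, hj⟩, hZ⟩ := ihA
    have hfin : Finite σ := fA
    have hg : g ≠ 0 := hj
    refine ⟨hfin, ⟨(0 : Fin 1), pow_ne_zero k hg⟩, tail_expand_mem k hk (fun a n ha hn h1 => ?_) _ hZ⟩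
    refine sf_of_local _ 0 _ (fun H b hb hH => ?_) (exists_fe _ ⟨(0 : Fin 1), pow_ne_zero k hg⟩)
    have h3 := SF.locEq h1 H _ (loc_shift g hg k 0 (Nat.pos_of_ne_zero hk) H b hb) hH
    rw [← exp_root k a n hk ha] at h3
    have h4 := root_of_shift b k 0 hk _ 0 h3
    rwa [Nat.cast_zero, zero_div, sub_zero] at h4
  | equiv A B i k h Z hA ihA =>
    obtain ⟨fA, ⟨j, hj⟩, hZ⟩ := ihA
    have := fA
    refine ⟨Finite.of_equiv _ i, ⟨k j, ?_⟩, denRing_mono (fun a n _ _ hS => ?_) hZ⟩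
    · rw [h, Ne, map_eq_zero_iff _ (rename_injective _ i.injective)]
      exact hj
    · exact sf_equiv i k A.f B.f h 0 _ hS

/-- ideals at the origin -/
theorem mr_ideal (A : Fam) (Z : PowerSeries M) (h : MR L A Z) (c : M) :
    PowerSeries.C c * Z ∈ DenRing L (fun a n => ∀ b : Polynomial ℂ, IsLocalBI A.f b →
      b.eval (-(n : ℂ) / a) = 0) := by
  classical
  obtain ⟨hfin, -, hm⟩ := mr_main A Z h
  have := hfin
  refine (DenRing L _).mul_mem (C_mem _) (denRing_mono (fun a n _ _ h b hb => ?_)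
    (mem_of_tail hm))
  exact SF.localBI h b hb

end Pool.Agent.NH56.MR
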