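import Pool.Agent.W574.RO.Tail

set_option autoImplicit false

/-! # The volumes of the sets `ord ≥ e`, for sums over the strata of a principalization -/

namespace Pool.Agent.NH56.MR

open PowerSeries Pool.Agent.W574.MO Pool.Agent.W574.RO

variable {M : Type} [CommRing M] {L : Mˣ}

/-- the numerator of `mf` -/
noncomputable def nP (L : Mˣ) (a n : ℕ) : Polynomial M :=
  if a = 0 then 1 else Polynomial.C (((L : M) - 1) * ((L⁻¹ ^ n : Mˣ) : M)) * Polynomial.X ^ a

/-- the denominator of `mf` -/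
noncomputable def dP (L : Mˣ) (a n : ℕ) : Polynomial M :=
  if a = 0 then 1 else 1 - Polynomial.C ((L⁻¹ ^ n : Mˣ) : M) * Polynomial.X ^ a

/-- the inverse of the denominator -/
noncomputable def gP (L : Mˣ) (a n : ℕ) : M⟦X⟧ := if a = 0 then 1 else geo L a n

theorem coe_prod' {J : Type} (s : Finset J) (f : J → Polynomial M) :
    ((∏ i ∈ s, f i : Polynomial M) : M⟦X⟧) = ∏ i ∈ s, (f i : M⟦X⟧) :=
  map_prod (Polynomial.coeToPowerSeries.ringHom (R := M)) f s

theorem coe_sum' {J : Type} (s : Finset J) (f : J → Polynomial M) :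
    ((∑ i ∈ s, f i : Polynomial M) : M⟦X⟧) = ∑ i ∈ s, (f i : M⟦X⟧) :=
  map_sum (Polynomial.coeToPowerSeries.ringHom (R := M)) f s

theorem dP_gP (a n : ℕ) : ((dP L a n : Polynomial M) : M⟦X⟧) * gP L a n = 1 := by
  by_cases h : a = 0
  · rw [dP, gP, if_pos h, if_pos h, Polynomial.coe_one, one_mul]
  · have h1 := geo_mul L (Nat.one_le_iff_ne_zero.2 h) n
    rw [dP, gP, if_neg h, if_neg h]
    rw [qq] at h1
    rw [Polynomial.coe_sub, Polynomial.coe_one, Polynomial.coe_mul, Polynomial.coe_C,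
      Polynomial.coe_pow, Polynomial.coe_X]
    exact h1

theorem mf_eq (a n : ℕ) : (mf L a n : M⟦X⟧) = ((nP L a n : Polynomial M) : M⟦X⟧) * gP L a n := by
  by_cases h : a = 0
  · rw [nP, gP, if_pos h, if_pos h, Polynomial.coe_one, one_mul, h, mf_zero]
  · rw [nP, gP, if_neg h, if_neg h, mf, if_neg h, Polynomial.coe_mul, Polynomial.coe_C,
      Polynomial.coe_pow, Polynomial.coe_X]

theorem gP_mem {K : ℕ → ℕ → Prop} (a n : ℕ) (hn : 1 ≤ n) (hK : 0 < a → K a n) :
    gP L a n ∈ DenRing L K := by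
  by_cases h : a = 0
  · rw [gP, if_pos h]
    exact (DenRing L K).one_mem
  · rw [gP, if_neg h]
    exact geo_mem (Nat.one_le_iff_ne_zero.2 h) hn (hK (Nat.pos_of_ne_zero h))

theorem poly_mem {K : ℕ → ℕ → Prop} (p : Polynomial M) : (p : M⟦X⟧) ∈ DenRing L K :=
  Subring.subset_closure (Or.inl ⟨p, rfl⟩)

/-- **The tail of a sum over strata.** -/
theorem tail_strata {J : Type} [Fintype J] [DecidableEq J] (a : J → ℕ) (k : J → ℕ)
    (cls : Finset J → M) (hk : ∀ i, a i = 0 → k i = 0)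
    (vol : ∑ S : Finset J, cls S * ∏ i ∈ Sᶜ, ∑ e ∈ Finset.range (k i + 1), (L : M) ^ e =
      ∏ i, ∑ e ∈ Finset.range (k i + 1), (L : M) ^ e)
    (K : ℕ → ℕ → Prop) (hK : ∀ i, 0 < a i → K (a i) (k i + 1)) :
    tail 1 (∑ S : Finset J, C (cls S) * ∏ i ∈ S, mf L (a i) (k i + 1)) ∈ DenRing L K := by
  classical
  set D : Polynomial M := ∏ i, dP L (a i) (k i + 1) with hD
  set P : Polynomial M := ∑ S : Finset J, Polynomial.C (cls S) * ((∏ i ∈ S, nP L (a i) (k i + 1)) *
    ∏ i ∈ Sᶜ, dP L (a i) (k i + 1)) with hP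
  set G : M⟦X⟧ := ∏ i, gP L (a i) (k i + 1) with hG
  set Z : M⟦X⟧ := ∑ S : Finset J, C (cls S) * ∏ i ∈ S, mf L (a i) (k i + 1) with hZ
  have hDG : (D : M⟦X⟧) * G = 1 := by
    rw [hD, hG, coe_prod', ← Finset.prod_mul_distrib]
    exact Finset.prod_eq_one fun i _ => dP_gP _ _
  have hDZ : (D : M⟦X⟧) * Z = (P : M⟦X⟧) := by
    have hDc : (D : M⟦X⟧) = ∏ i, ((dP L (a i) (k i + 1) : Polynomial M) : M⟦X⟧) := by
      rw [hD, coe_prod']
    rw [hZ, hP, hDc, Finset.mul_sum, coe_sum']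
    refine Finset.sum_congr rfl fun S _ => ?_
    rw [Polynomial.coe_mul, Polynomial.coe_C, Polynomial.coe_mul, coe_prod',
      coe_prod', ← Finset.prod_mul_prod_compl S (fun i => ((dP L (a i) (k i + 1) : Polynomial M) : M⟦X⟧))]
    have h1 : ∏ i ∈ S, (mf L (a i) (k i + 1) : M⟦X⟧) =
        (∏ i ∈ S, ((nP L (a i) (k i + 1) : Polynomial M) : M⟦X⟧)) *
          ∏ i ∈ S, gP L (a i) (k i + 1) := by
      rw [← Finset.prod_mul_distrib]
      exact Finset.prod_congr rfl fun i _ => mf_eq _ _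
    have h2 : (∏ i ∈ S, ((dP L (a i) (k i + 1) : Polynomial M) : M⟦X⟧)) *
        ∏ i ∈ S, gP L (a i) (k i + 1) = 1 := by
      rw [← Finset.prod_mul_distrib]
      exact Finset.prod_eq_one fun i _ => dP_gP _ _
    rw [h1]
    linear_combination (C (cls S) * (∏ i ∈ Sᶜ, ((dP L (a i) (k i + 1) : Polynomial M) : M⟦X⟧)) *
      ∏ i ∈ S, ((nP L (a i) (k i + 1) : Polynomial M) : M⟦X⟧)) * h2
  -- the values at `1`
  set ε : J → M := fun i => if a i = 0 then 1 else ((L : M) - 1) * ((L⁻¹ ^ (k i + 1) : Mˣ) : M)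
    with hε
  set p : J → M := fun i => ∑ e ∈ Finset.range (k i + 1), (L : M) ^ e with hp
  have hn1 : ∀ i, (nP L (a i) (k i + 1)).eval 1 = ε i := by
    intro i
    rw [nP, hε]
    by_cases h : a i = 0
    · simp only [if_pos h, Polynomial.eval_one]
    · simp only [if_neg h, Polynomial.eval_mul, Polynomial.eval_C, Polynomial.eval_pow,
        Polynomial.eval_X, one_pow, mul_one]
  have hd1 : ∀ i, (dP L (a i) (k i + 1)).eval 1 = ε i * p i := by
    intro i
    rw [dP, hε, hp]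
    by_cases h : a i = 0
    · simp only [if_pos h, Polynomial.eval_one, hk i h, Nat.zero_add, Finset.sum_range_one,
        pow_zero, mul_one]
    · simp only [if_neg h, Polynomial.eval_sub, Polynomial.eval_one, Polynomial.eval_mul,
        Polynomial.eval_C, Polynomial.eval_pow, Polynomial.eval_X, one_pow, mul_one]
      have h1 := geom_sum_mul (L : M) (k i + 1)
      have h2 : ((L⁻¹ ^ (k i + 1) : Mˣ) : M) * (L : M) ^ (k i + 1) = 1 := by
        rw [← Units.val_pow_eq_pow_val, ← Units.val_mul, ← mul_pow, inv_mul_cancel, one_pow,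
          Units.val_one]
      linear_combination (-((L⁻¹ ^ (k i + 1) : Mˣ) : M)) * h1 - h2
  have hval : D.eval 1 = P.eval 1 := by
    rw [hD, hP, Polynomial.eval_prod, Polynomial.eval_finsetSum]
    have h1 : ∀ S : Finset J, (Polynomial.C (cls S) * ((∏ i ∈ S, nP L (a i) (k i + 1)) *
        ∏ i ∈ Sᶜ, dP L (a i) (k i + 1))).eval 1 = (∏ i, ε i) * (cls S * ∏ i ∈ Sᶜ, p i) := by
      intro S
      rw [Polynomial.eval_mul, Polynomial.eval_C, Polynomial.eval_mul, Polynomial.eval_prod,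
        Polynomial.eval_prod, Finset.prod_congr rfl fun i _ => hn1 i,
        Finset.prod_congr rfl fun i _ => hd1 i, Finset.prod_mul_distrib,
        ← Finset.prod_mul_prod_compl S ε]
      ring
    rw [Finset.sum_congr rfl fun S _ => h1 S, ← Finset.mul_sum, vol,
      Finset.prod_congr rfl fun i _ => hd1 i, Finset.prod_mul_distrib]
  obtain ⟨Q, hQ⟩ : (Polynomial.X - Polynomial.C (1 : M)) ∣ D - Polynomial.X * P := by
    rw [Polynomial.dvd_iff_isRoot, Polynomial.IsRoot, Polynomial.eval_sub, Polynomial.eval_mul,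
      Polynomial.eval_X, one_mul, hval, sub_self]
  have hQ' : (D : M⟦X⟧) - X * (P : M⟦X⟧) = (X - 1) * (Q : M⟦X⟧) := by
    have h1 := congrArg (fun r : Polynomial M => (r : M⟦X⟧)) hQ
    simp only [Polynomial.coe_sub, Polynomial.coe_mul, Polynomial.coe_X, map_one,
      Polynomial.coe_one] at h1
    exact h1
  have h3 : (D : M⟦X⟧) * tail 1 Z = -(Q : M⟦X⟧) := by
    apply one_sub_X_cancel
    have h4 := tail_eq (1 : M) Z
    rw [map_one] at h4
    linear_combination (D : M⟦X⟧) * h4 - X * hDZ + hQ'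
  have h5 : tail 1 Z = -(Q : M⟦X⟧) * G := by
    linear_combination G * h3 - tail 1 Z * hDG
  rw [h5]
  refine (DenRing L K).mul_mem ((DenRing L K).neg_mem (poly_mem Q)) ?_
  exact Subring.prod_mem _ fun i _ => gP_mem _ _ (Nat.succ_le_succ (Nat.zero_le _)) (hK i)

end Pool.Agent.NH56.MR
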