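import Pool.Agent.NH56.MR.Rees
import Pool.Agent.NH56.MR.Tl

set_option autoImplicit false

/-! # Principalizations which are blow-ups -/

namespace Pool.Agent.NH56.MR

open MvPowerSeries Pool.Agent.W574.MO Pool.Agent.W574.RO Pool.Agent.Y231.RF

variable {σ τ : Type} [Fintype σ] [DecidableEq σ] [Fintype τ] [DecidableEq τ] {κ : τ → Type}
  [∀ t, Fintype (κ t)] [∀ t, DecidableEq (κ t)]

/-- Numerical and other data of a proper birational morphism `φ : Y → ℂ ^ σ`, `Y` smooth, which is a
principalization of the product of the ideals `I_t = (g t j)_j` and which is the blow-up along `I_s`.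
The `E_i`, `i ∈ J`, are the components of the zeros of the product of the `I_t` on `Y` (the exceptional
divisors and the strict transforms of hypersurfaces) which meet the fibre over the origin. -/
structure Model {M : Type} [CommRing M] (L : Mˣ) (g : (t : τ) → κ t → MvPolynomial σ ℂ) (s : τ)
    (J : Type) [Fintype J] [DecidableEq J] where
  /-- the multiplicity of `E_i` in the divisor of the Jacobian determinant of `φ` is `k i` -/
  k : J → ℕ
  /-- the orders of the ideals `I_t` along `E_i` -/
  m : J → τ → ℕ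
  /-- the classes of the strata `E_S° ∩ φ⁻¹(0)` -/
  cls : Finset J → M
  /-- the exceptional divisors lie over the zeros of `I_s` -/
  exc : ∀ i, m i s = 0 → k i = 0
  /-- the arcs with the origin `0` have the volume `1`:
  `∑_S [E_S° ∩ φ⁻¹(0)] ∏_{i ∈ S} (L - 1) / (L^(k i + 1) - 1) = 1` -/
  vol : ∑ S : Finset J, cls S * ∏ i ∈ Sᶜ, ∑ e ∈ Finset.range (k i + 1), (L : M) ^ e =
    ∏ i, ∑ e ∈ Finset.range (k i + 1), (L : M) ^ e
  /-- formal charts at general points of `E_i`; the zeros of a given polynomial which does not vanish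
  at the origin can be avoided -/
  chart : ∀ i, ∀ H : MvPolynomial σ ℂ, MvPolynomial.constantCoeff H ≠ 0 →
    ∃ E : Chart g, E.k = k i ∧ E.m = m i ∧ Unramified E s ∧
      constantCoeff (MvPolynomial.aeval E.ξ H) ≠ 0

/-- The local motivic zeta function at the origin of the product `∏ t, I_t ^ a t`, normalized such that
the arcs with the origin `0` have the volume `1`:
`∑_S [E_S° ∩ φ⁻¹(0)] ∏_{i ∈ S} (L - 1) L^(-ν_i) T^(N_i) / (1 - L^(-ν_i) T^(N_i))` with `ν_i = k i + 1` and
`N_i = ∑ t, a t * m i t` (for `N_i = 0`, in which case `ν_i = 1`, the factor is `1`, see `mf`). -/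
noncomputable def Model.zeta {M : Type} [CommRing M] {L : Mˣ}
    {g : (t : τ) → κ t → MvPolynomial σ ℂ} {s : τ} {J : Type} [Fintype J] [DecidableEq J]
    (Y : Model L g s J) (a : τ → ℕ) : PowerSeries M :=
  ∑ S : Finset J, PowerSeries.C (Y.cls S) * ∏ i ∈ S, mf L (∑ t, a t * Y.m i t) (Y.k i + 1)

end Pool.Agent.NH56.MR
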