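import Pool.Agent.NH56.MR.Lin
import Pool.Agent.Y231.RF.Main

set_option autoImplicit false
set_option linter.unusedSectionVars false
set_option linter.unusedVariables false

/-! # Blow-ups: all components are Rees divisors -/

namespace Pool.Agent.NH56.MR

open MvPowerSeries Pool.Agent.W574.SM Pool.Agent.W574.LM Pool.Agent.W574.HS Pool.Agent.TH192.DT
  Pool.Agent.H628R4.TP Pool.Agent.Y231.RF

variable {σ τ : Type} [Fintype σ] [DecidableEq σ] [Fintype τ] [DecidableEq τ] {κ : τ → Type}
  [∀ t, Fintype (κ t)] [∀ t, DecidableEq (κ t)]

/-- the differential of `u` at the origin of the chart -/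
noncomputable def diff (u : MvPowerSeries σ ℂ) : σ → ℂ := fun s => constantCoeff (pderiv ℂ s u)

/-- The chart is a chart of a variety `Y` over the affine space, at a point `p`. The map from `Y` to the
product of the affine space and of the projective space of the generators `g t j` of the ideal `I_t` is
unramified at `p`: the differentials of the coordinates `x_i` and of the quotients
`g t j / g t (j0 t)` span the cotangent space of `Y` at `p`. This is so at all points if `Y` is the
blow-up of the affine space along `I_t`, because then this map is an embedding. -/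
def Unramified {g : (t : τ) → κ t → MvPolynomial σ ℂ} (E : Chart g) (t : τ) : Prop :=
  ∃ h : κ t → MvPowerSeries σ ℂ,
    (∀ j, MvPolynomial.aeval E.ξ (g t j) = MvPolynomial.aeval E.ξ (g t (E.j0 t)) * h j) ∧
    Submodule.span ℂ (Set.range (fun i => diff (E.ξ i)) ∪ Set.range fun j => diff (h j)) = ⊤

theorem diff_sub_C (u : MvPowerSeries σ ℂ) (c : ℂ) : diff (u - C c) = diff u := by
  funext s
  rw [diff, diff, map_sub]
  have h1 : pderiv ℂ s (C c : MvPowerSeries σ ℂ) = 0 := by
    have h2 : (C c : MvPowerSeries σ ℂ) = c • 1 := by rw [smul_eq_C_mul, mul_one]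
    rw [h2, Derivation.map_smul, Derivation.map_one_eq_zero, smul_zero]
  rw [h1, sub_zero]

/-- **Unramified divisors are Rees divisors.** -/
theorem isRees_of_unramified {g : (t : τ) → κ t → MvPolynomial σ ℂ} (E : Chart g) (t₀ : τ)
    (A : τ → Prop) (hA : A t₀) (h : Unramified E t₀) : E.IsRees A := by
  classical
  obtain ⟨h, hq, hspan⟩ := h
  obtain ⟨v, hvz, hvS, hdet⟩ := exists_choice E.z _ hspan
  have key : ∀ t, ∃ w : MvPowerSeries σ ℂ, constantCoeff w = 0 ∧ diff w = v t ∧
      (t = E.z → w = X E.z) ∧
      (t ≠ E.z → (∃ q : MvPolynomial σ ℂ, MvPolynomial.aeval E.ξ q = w) ∨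
        ∃ s, A s ∧ ∃ c : κ s → ℂ, ∑ j, c j • MvPolynomial.aeval E.ξ (g s j)
          = MvPolynomial.aeval E.ξ (g s (E.j0 s)) * w) := by
    intro t
    by_cases ht : t = E.z
    · subst ht
      refine ⟨X E.z, constantCoeff_X _, ?_, fun _ => rfl, fun h => absurd rfl h⟩
      rw [hvz]
      funext s
      rw [diff]
      by_cases hs : s = E.z
      · subst hs
        rw [pderiv_X_self, map_one, Pi.single_eq_same]
      · rw [pderiv_X_of_ne (Ne.symm hs), map_zero, Pi.single_eq_of_ne hs]
    · rcases hvS t ht with ⟨i, hi⟩ | ⟨j, hj⟩
      · refine ⟨E.ξ i - C (constantCoeff (E.ξ i)), ?_, ?_, fun h => absurd h ht, fun _ =>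
          Or.inl ⟨MvPolynomial.X i - MvPolynomial.C (constantCoeff (E.ξ i)), ?_⟩⟩
        · rw [map_sub, constantCoeff_C, sub_self]
        · rw [diff_sub_C]
          exact hi
        · rw [map_sub, MvPolynomial.aeval_X, MvPolynomial.aeval_C]
          rfl
      · refine ⟨h j - C (constantCoeff (h j)), ?_, ?_, fun h => absurd h ht, fun _ =>
          Or.inr ⟨t₀, hA, fun i => (if i = j then 1 else 0) -
            (if i = E.j0 t₀ then constantCoeff (h j) else 0), ?_⟩⟩
        · rw [map_sub, constantCoeff_C, sub_self]
        · rw [diff_sub_C]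
          exact hj
        · have h1 : ∀ i, ((if i = j then (1 : ℂ) else 0) -
              (if i = E.j0 t₀ then constantCoeff (h j) else 0)) •
                MvPolynomial.aeval E.ξ (g t₀ i) =
              (if i = j then MvPolynomial.aeval E.ξ (g t₀ i) else 0) -
                (if i = E.j0 t₀ then constantCoeff (h j) • MvPolynomial.aeval E.ξ (g t₀ i)
                  else 0) := by
            intro i
            rw [sub_smul]
            congr 1
            · split_ifs with h3
              · rw [one_smul]
              · rw [zero_smul]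
            · split_ifs with h3
              · rfl
              · rw [zero_smul]
          rw [Finset.sum_congr rfl fun i _ => h1 i, Finset.sum_sub_distrib,
            Finset.sum_ite_eq', Finset.sum_ite_eq', if_pos (Finset.mem_univ _),
            if_pos (Finset.mem_univ _), hq j, smul_eq_C_mul]
          ring
  choose w hw0 hwd hwz hwt using key
  refine ⟨w, hwz _ rfl, hw0, ?_, fun t ht => hwt t ht⟩
  have h1 : (Matrix.of fun s t => constantCoeff (pderiv ℂ s (w t))) =
      (Matrix.of fun s t => v t s) := by
    ext s t
    rw [Matrix.of_apply, Matrix.of_apply, ← hwd t]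
    rfl
  rw [h1]
  exact hdet

end Pool.Agent.NH56.MR
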